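import Mathlib
import Pool.Agent.R342.Sig.Main

/-!
# The component count `C_r` of divisor-function closures is not monotone

For `r > 1` let `σ_{-r}(n) = ∑_{d ∣ n} d^{-r}` and let `C_r` be the number of connected components
of the closure of `σ_{-r}(ℕ)`.  We prove `C_r = 253` for `r = 56/13` and `C_r = 251` for the larger
exponent `r = 108/25`, so `r ↦ C_r` is not monotone on `(1, ∞)`.

The primes `≥ 23` contribute a full interval (gap filling by a greedy expansion, with Chebyshev
bounds for the primes `≥ 8111`), and the eight primes `≤ 19` are added one at a time, keeping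
rigorous fixed-point bounds for the end points of the finitely many intervals; the integer
computations are run by the kernel.
-/

namespace Pool.Agent.Results.MP_9329f2_nt.ComponentCountDrops

/-- The divisor function `σ_{-r}(n) = ∑_{d ∣ n} d^{-r}`. -/
noncomputable def sigmaNeg (r : ℝ) (n : ℕ) : ℝ := ∑ d ∈ n.divisors, (d : ℝ) ^ (-r)

/-- `C_r`: the number of connected components (in `ℕ∞`) of the closure in `ℝ` of
`{σ_{-r}(n) : n ≥ 1}`. -/
noncomputable def C (r : ℝ) : ℕ∞ :=
  ENat.card (ConnectedComponents (closure (sigmaNeg r '' {n : ℕ | 0 < n})))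

/-- The function `r ↦ C_r` is not monotone on `(1, ∞)`: `C_{56/13} = 253 > 251 = C_{108/25}`
although `56/13 < 108/25`. -/
theorem result :
    ¬ MonotoneOn C (Set.Ioi 1) ∧
      ∃ r s : ℝ, 1 < r ∧ r < s ∧ r = 56 / 13 ∧ s = 108 / 25 ∧ C r = 253 ∧ C s = 251 := by
  have hR : C (56 / 13) = 253 := Pool.R342.Sig.nC_R
  have hS : C (108 / 25) = 251 := Pool.R342.Sig.nC_S
  refine ⟨fun h => ?_, 56 / 13, 108 / 25, by norm_num, by norm_num, rfl, rfl, hR, hS⟩
  have := h (a := 56 / 13) (b := 108 / 25) (by rw [Set.mem_Ioi]; norm_num)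
    (by rw [Set.mem_Ioi]; norm_num) (by norm_num)
  rw [hR, hS] at this
  exact absurd this (by decide)

end Pool.Agent.Results.MP_9329f2_nt.ComponentCountDrops
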